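import Pool.Agent.MP_c1891a_nt.H83.AxC
import Pool.Agent.MP_c1891a_nt.G43.SpecA

/-! Rosenlicht's lemma in the form of the specification. -/

open Polynomial

namespace Pool.Agent.MP_c1891a_nt.G43

theorem ros_sep (h : SDerExt) {C F : Type} [Field C] [CharZero C] [Field F] [Algebra C F] {a : F}
    (ha : ∀ δ : Derivation C F F, δ a = 0) : IsAlgebraic C a := by
  by_contra ht
  have hinj : Function.Injective (aeval a : C[X] →ₐ[C] F) := transcendental_iff_injective.1 ht
  let : Algebra C[X] F := (aeval a : C[X] →ₐ[C] F).toRingHom.toAlgebra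
  have : IsScalarTower C C[X] F :=
    .of_algebraMap_eq fun r => ((aeval a : C[X] →ₐ[C] F).commutes r).symm
  obtain ⟨D, hD⟩ := h C C[X] F hinj
    ((Algebra.linearMap C[X] F).compDer (Polynomial.derivative' : Derivation C C[X] C[X]))
  have e := hD X
  have e1 : algebraMap C[X] F X = a := aeval_X a
  rw [e1, ha] at e
  have e2 : algebraMap C[X] F (derivative X) = 0 := e.symm
  simp at e2

theorem sRos (h : SDerExt) : SRos := by
  intro C F ι _ _ _ _ _ γ y a hγ hy hδ
  classical
  have : CharZero F := charZero_of_injective_algebraMap (algebraMap C F).injective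
  have h1 : ∀ k, IsAlgebraic C (y k) := by
    intro k
    obtain ⟨φ, hφ⟩ := LinearMap.exists_extend (hγ.repr)
    have := H83.ros y hy a γ (fun d => by simpa only [Algebra.smul_def] using hδ d)
      ((Finsupp.lapply k).comp φ) (fun i => if i = k then 1 else 0) fun i => by
        have e := LinearMap.congr_fun hφ ⟨γ i, Submodule.subset_span ⟨i, rfl⟩⟩
        simp only [LinearMap.comp_apply, Submodule.subtype_apply] at e
        rw [LinearMap.comp_apply, e, hγ.repr_eq_single i _ rfl]
        simp [Finsupp.single_apply]
    rw [Finset.prod_eq_single k (fun i _ hi => by simp [hi]) (by simp)] at this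
    simpa using this
  refine ⟨h1, ros_sep h fun δ => ?_⟩
  rw [← hδ δ]
  refine Finset.sum_eq_zero fun k _ => ?_
  rw [H83.der_alg δ (fun c : C => δ.map_algebraMap c) (algebraMap C F).injective (h1 k)]
  simp

end Pool.Agent.MP_c1891a_nt.G43
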