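import Pool.Agent.MP_c1891a_nt.G43.Spec2

/-! Evaluation of Laurent polynomials, units, factors, and the case of rank one. -/

namespace Pool.Agent.MP_c1891a_nt.G43

open Finset Module H43 Polynomial

/-- evaluation at a character. -/
noncomputable def evH {Λ : Type} [AddCommGroup Λ] (x : AddChar Λ ℂ) :
    AddMonoidAlgebra ℂ Λ →ₐ[ℂ] ℂ := AddMonoidAlgebra.lift ℂ ℂ Λ x.toMonoidHom

theorem evH_eq {d : ℕ} (x : AddChar (Fin d → ℤ) ℂ) (P : LN d) : evH x P = evL P x := by
  rw [evH, AddMonoidAlgebra.lift_apply]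
  rfl

theorem evH_single {Λ : Type} [AddCommGroup Λ] (x : AddChar Λ ℂ) (a : Λ) (c : ℂ) :
    evH x (AddMonoidAlgebra.single a c) = c * x a := by
  rw [evH, AddMonoidAlgebra.lift_single]
  rfl

/-- the character of a point of the torus. -/
noncomputable def chr {d : ℕ} (x : Fin d → ℂ) (hx : ∀ i, x i ≠ 0) : AddChar (Fin d → ℤ) ℂ where
  toFun a := ∏ i, x i ^ a i
  map_zero_eq_one' := by simp
  map_add_eq_mul' a b := by
    rw [← prod_mul_distrib]
    exact prod_congr rfl fun i _ => zpow_add₀ (hx i) _ _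

theorem chr_apply {d : ℕ} (x : Fin d → ℂ) (hx : ∀ i, x i ≠ 0) (a : Fin d → ℤ) :
    chr x hx a = ∏ i, x i ^ a i := rfl

theorem evL_inj {d : ℕ} {P : LN d} (h : ∀ χ, evL P χ = 0) : P = 0 := by
  classical
  let e : (Fin d → ℤ) → (AddChar (Fin d → ℤ) ℂ →* ℂ) := fun a =>
    { toFun := fun χ => χ a, map_one' := rfl, map_mul' := fun _ _ => rfl }
  have k : ∀ i j : ℤ, (2 : ℂ) ^ i = 2 ^ j → i = j := fun i j e =>
    zpow_right_injective₀ (a := (2 : ℝ)) (by norm_num) (by norm_num)
      (by simpa using congrArg norm e)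
  have he : Function.Injective e := fun a b hab => funext fun i => by
    have h1 : ∀ c : Fin d → ℤ, ∏ j, (if j = i then (2 : ℂ) else 1) ^ c j = 2 ^ c i := fun c => by
      rw [prod_eq_single i (fun j _ hj => by simp [hj]) (by simp), if_pos rfl]
    have := DFunLike.congr_fun hab (chr (fun j => if j = i then 2 else 1) fun j => by
      split_ifs <;> simp)
    exact k _ _ ((h1 a).symm.trans (this.trans (h1 b)))
  have := linearIndependent_iff'.1 ((linearIndependent_monoidHom _ ℂ).comp _ he)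
    P.coeff.support P.coeff (by
      funext t
      rw [Finset.sum_apply, Pi.zero_apply, ← h t]
      rfl)
  refine AddMonoidAlgebra.coeff_injective (Finsupp.ext fun μ => ?_)
  by_contra c
  exact c (this μ (Finsupp.mem_support_iff.2 c))

theorem supp_ne {Λ : Type} {P : AddMonoidAlgebra ℂ Λ} (h : P ≠ 0) : P.coeff.support.Nonempty := by
  rw [Finsupp.support_nonempty_iff]
  intro e
  exact h (AddMonoidAlgebra.coeff_injective (by simpa using e))

/-- the units are the monomials. -/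
theorem unit_card {Λ : Type} [AddCommGroup Λ] [TwoUniqueSums Λ] {a : AddMonoidAlgebra ℂ Λ}
    (h : IsUnit a) : a.coeff.support.card ≤ 1 := by
  classical
  obtain ⟨b, hb⟩ := h.exists_right_inv
  by_contra hc
  have hb0 : b.coeff.support.Nonempty := supp_ne fun e => by simp [e] at hb
  obtain ⟨p, hp, q, hq, hne, u1, u2⟩ := TwoUniqueSums.uniqueAdd_of_one_lt_card
    (A := a.coeff.support) (B := b.coeff.support)
    (by have := hb0.card_pos; nlinarith)
  have key : ∀ z ∈ a.coeff.support ×ˢ b.coeff.support,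
      UniqueAdd a.coeff.support b.coeff.support z.1 z.2 → z.1 + z.2 = 0 := by
    intro z hz u
    have e := AddMonoidAlgebra.coeff_mul_add_of_uniqueAdd u
    rw [hb] at e
    obtain ⟨z1, z2⟩ := mem_product.1 hz
    by_contra h0
    rw [AddMonoidAlgebra.one_def, AddMonoidAlgebra.coeff_single, Finsupp.single_apply,
      if_neg (Ne.symm h0)] at e
    exact mul_ne_zero (Finsupp.mem_support_iff.1 z1) (Finsupp.mem_support_iff.1 z2) e.symm
  have := u1 (mem_product.1 hq).1 (mem_product.1 hq).2 ((key q hq u2).trans (key p hp u1).symm)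
  exact hne (Prod.ext this.1.symm this.2.symm)

theorem unit_single {Λ : Type} [AddCommGroup Λ] [TwoUniqueSums Λ] {a : AddMonoidAlgebra ℂ Λ}
    (h : IsUnit a) : ∃ ν c, c ≠ 0 ∧ a = AddMonoidAlgebra.single ν c := by
  obtain ⟨ν, hν⟩ := card_le_one_iff_subset_singleton.1 (unit_card h)
  have e : a = AddMonoidAlgebra.single ν (a.coeff ν) :=
    AddMonoidAlgebra.coeff_injective (Finsupp.support_subset_singleton.1 hν)
  exact ⟨ν, a.coeff ν, fun z => h.ne_zero (by rw [e, z]; simp), e⟩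

theorem single_unit {Λ : Type} [AddCommGroup Λ] (ν : Λ) {c : ℂ} (hc : c ≠ 0) :
    IsUnit (AddMonoidAlgebra.single ν c : AddMonoidAlgebra ℂ Λ) :=
  IsUnit.of_mul_eq_one (AddMonoidAlgebra.single (-ν) c⁻¹) (by
    rw [AddMonoidAlgebra.single_mul_single, add_neg_cancel, mul_inv_cancel₀ hc]; rfl)

theorem facN_list {d : ℕ} {P : LN d} (h0 : P ≠ 0) :
    ∃ f : Multiset (LN d), (∀ b ∈ f, Irreducible b) ∧ Associated f.prod P := by
  have : IsNoetherianRing (LN d) := Algebra.FiniteType.isNoetherianRing ℂ (LN d)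
  exact WfDvdMonoid.exists_factors P h0

theorem sFacN : SFacN := by
  classical
  refine fun d => ⟨fun χ => ⟨evH χ, evH_eq χ, evH_single χ⟩, fun P => evL_inj, fun P h0 h => ?_⟩
  obtain ⟨f, hf, u, hu⟩ := facN_list h0
  by_contra hc
  push Not at hc
  have hB : ∀ g : LN d, ∃ T : Finset (Fin d → ℤ), g ∈ f → ∀ x, evL g x = 0 → ¬ NoRel T x := by
    intro g
    by_cases hg : g ∈ f
    · have := hc g (hf g hg) (hu ▸ (Multiset.dvd_prod hg).mul_right _)
      simp only [BigN, not_forall, not_exists, not_and] at this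
      obtain ⟨B, hB⟩ := this
      exact ⟨B, fun _ => hB⟩
    · exact ⟨∅, fun e => absurd e hg⟩
  choose B hB using hB
  obtain ⟨x, hx, hr⟩ := h (f.toFinset.biUnion B)
  rw [← evH_eq, ← hu, map_mul, mul_eq_zero, or_iff_left (u.isUnit.map (evH x)).ne_zero,
    map_multiset_prod, Multiset.prod_eq_zero_iff, Multiset.mem_map] at hx
  obtain ⟨g, hg, e⟩ := hx
  exact hB g hg x (evH_eq x g ▸ e)
    (hr.mono (subset_biUnion_of_mem B (Multiset.mem_toFinset.2 hg)))

theorem sRk1 (_h : SFacN) : SRk1 := by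
  classical
  intro d Q Λ hQ hB hΛ hd
  obtain ⟨μ₀, hμ₀⟩ := supp_ne hQ.ne_zero
  obtain ⟨⟨a, haΛ⟩, ha⟩ := finrank_le_one_iff.1 hΛ
  set I := Q.coeff.support with hI
  have hn : ∀ μ, ∃ n : ℤ, μ ∈ I → n • a = μ - μ₀ := fun μ => by
    by_cases hμ : μ ∈ I
    · obtain ⟨n, hn⟩ := ha ⟨μ - μ₀, hd μ hμ μ₀ hμ₀⟩
      exact ⟨n, fun _ => congrArg Subtype.val hn⟩
    · exact ⟨0, fun e => absurd e hμ⟩
  choose n hn using hn
  let lo : ℤ := I.inf' ⟨μ₀, hμ₀⟩ n
  let ψ : ℂ[X] →ₐ[ℂ] LN d := aeval (AddMonoidAlgebra.single a 1)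
  let f : ℂ[X] := ∑ μ ∈ I, C (Q.coeff μ) * X ^ (n μ - lo).toNat
  have hQf : Q = AddMonoidAlgebra.single (μ₀ + lo • a) 1 * ψ f := by
    rw [map_sum, mul_sum]
    conv_lhs => rw [← AddMonoidAlgebra.sum_coeff_single Q]
    refine sum_congr rfl fun μ hμ => ?_
    have h1 : lo ≤ n μ := inf'_le n hμ
    have h2 : ((n μ - lo).toNat : ℤ) = n μ - lo := by omega
    rw [map_mul, map_pow, aeval_X, aeval_C, AddMonoidAlgebra.single_pow, one_pow,
      AddMonoidAlgebra.coe_algebraMap, Function.comp_apply, AddMonoidAlgebra.single_mul_single,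
      AddMonoidAlgebra.single_mul_single, ← natCast_zsmul, h2, sub_smul, hn μ hμ]
    congr 1
    · abel
    · simp
  obtain ⟨χ, hχ, -⟩ := hB ∅
  have hψ : ∀ (x : AddChar (Fin d → ℤ) ℂ) (g : ℂ[X]), evH x (ψ g) = g.eval (x a) := fun x g => by
    rw [← aeval_algHom_apply, evH_single, one_mul, coe_aeval_eq_eval]
  have hr : f.IsRoot (χ a) := by
    rw [← evH_eq, hQf, map_mul, evH_single, one_mul, hψ] at hχ
    exact (mul_eq_zero.1 hχ).resolve_left (char_ne _ _)
  obtain ⟨g, hg⟩ := dvd_iff_isRoot.2 hr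
  have hu := (hQ.isUnit_or_isUnit (a := ψ (X - C (χ a)))
    (b := AddMonoidAlgebra.single (μ₀ + lo • a) 1 * ψ g) (by
      rw [mul_left_comm, ← map_mul, ← hg]; exact hQf)).resolve_left fun hu =>
    (hu.map (evH χ)).ne_zero (by rw [hψ]; simp)
  obtain ⟨ν, c, hc, e⟩ := unit_single hu
  have hQ2 : Q = AddMonoidAlgebra.single (a + ν) c + AddMonoidAlgebra.single ν (-(χ a * c)) := by
    rw [hQf, hg, map_mul, mul_left_comm, e, map_sub, aeval_X, aeval_C, sub_mul,
      AddMonoidAlgebra.coe_algebraMap, Function.comp_apply, AddMonoidAlgebra.single_mul_single,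
      AddMonoidAlgebra.single_mul_single, zero_add, one_mul, sub_eq_add_neg,
      AddMonoidAlgebra.single_neg]
    rfl
  have ha0 : a ≠ 0 := by
    rintro rfl
    apply hQ.ne_zero
    rw [hQ2, zero_add, χ.map_zero_eq_one, one_mul, ← AddMonoidAlgebra.single_add]
    simp
  have hne : a + ν ≠ ν := by simpa using ha0
  have c1 : Q.coeff (a + ν) = c := by
    rw [hQ2]; simp [hne.symm]
  have c2 : Q.coeff ν = -(χ a * c) := by
    rw [hQ2]; simp [hne]
  refine ⟨a + ν, ν, hne, ?_, ?_⟩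
  · ext μ
    rw [hI, Finsupp.mem_support_iff, mem_insert, mem_singleton]
    constructor
    · intro h
      by_contra h'
      push Not at h'
      apply h
      rw [hQ2]
      simp [h'.1.symm, h'.2.symm]
    · rintro (rfl | rfl)
      · rwa [c1]
      · rw [c2]; exact neg_ne_zero.2 (mul_ne_zero (char_ne _ _) hc)
  · rw [c1, c2, neg_neg, mul_div_cancel_right₀ _ hc]
    rintro ⟨s, s0, hs⟩
    obtain ⟨x, hx, hT⟩ := hB {s • a}
    refine hT _ (mem_singleton_self _) (smul_ne_zero s0.ne' ha0) ?_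
    rw [← evH_eq, hQ2, map_add, evH_single, evH_single, x.map_add_eq_mul] at hx
    have : x a = χ a := by
      have h2 : c * x ν * (x a - χ a) = 0 := by rw [← hx]; ring
      exact sub_eq_zero.1 ((mul_eq_zero.1 h2).resolve_left (mul_ne_zero hc (char_ne _ _)))
    rw [x.map_nsmul_eq_pow, this, hs]

end Pool.Agent.MP_c1891a_nt.G43
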