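import Pool.Agent.MP_c1891a_nt.G43.Spec3
import Pool.Agent.MP_c1891a_nt.G83.FacN

/-! The final statements in coordinates. -/

namespace Pool.Agent.MP_c1891a_nt.G43

open Finset Module H43

theorem fin_rel {d : ℕ} (T : Finset (Fin d → ℤ)) : ∃ B : ℕ, ∀ a ∈ T, ∀ i, |a i| ≤ B := by
  refine ⟨T.sup fun a => univ.sup fun i => (a i).natAbs, fun a ha i => ?_⟩
  have h1 : (a i).natAbs ≤ T.sup fun a => univ.sup fun i => (a i).natAbs :=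
    (le_sup (f := fun i => (a i).natAbs) (mem_univ i)).trans
      (le_sup (f := fun a : Fin d → ℤ => univ.sup fun i => (a i).natAbs) ha)
  rw [← Int.natCast_natAbs]
  exact_mod_cast h1

theorem fin_relL {d : ℕ} {L : Submodule ℤ (Fin d → ℤ)} (T : Finset L) : ∃ B : ℕ,
    ∀ χ : AddChar (Fin d → ℤ) ℂ, ¬ NoRel T (rs L χ) →
      ∃ a : Fin d → ℤ, a ≠ 0 ∧ (∀ i, |a i| ≤ B) ∧ χ a = 1 := by
  classical
  obtain ⟨B, hB⟩ := fin_rel (T.image Subtype.val)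
  refine ⟨B, fun χ h => ?_⟩
  simp only [NoRel, not_forall, not_not] at h
  obtain ⟨l, hl, l0, e⟩ := h
  exact ⟨l.1, fun z => l0 (Subtype.ext z), hB _ (mem_image_of_mem _ hl), e⟩

theorem fin_relT {d : ℕ} (T : Finset (Fin d → ℤ)) : ∃ B : ℕ,
    ∀ χ : AddChar (Fin d → ℤ) ℂ, ¬ NoRel T χ →
      ∃ a : Fin d → ℤ, a ≠ 0 ∧ (∀ i, |a i| ≤ B) ∧ χ a = 1 := by
  obtain ⟨B, hB⟩ := fin_rel T
  refine ⟨B, fun χ h => ?_⟩
  simp only [NoRel, not_forall, not_not] at h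
  obtain ⟨l, hl, l0, e⟩ := h
  exact ⟨l, l0, hB _ hl, e⟩

/-- the value of a Laurent polynomial at a point. -/
noncomputable def evX {d : ℕ} (P : LN d) (x : Fin d → ℂ) : ℂ :=
  ∑ μ ∈ P.coeff.support, P.coeff μ * ∏ i, x i ^ μ i

theorem fin_big {d : ℕ} {P : LN d} (hP : ∀ B : ℕ, ∃ x : Fin d → ℂ, (∀ i, x i ≠ 0) ∧ evX P x = 0 ∧
    ¬ ∃ a : Fin d → ℤ, a ≠ 0 ∧ (∀ i, |a i| ≤ B) ∧ ∏ i, x i ^ a i = 1) : BigN P := by
  intro T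
  obtain ⟨B, hB⟩ := fin_rel T
  obtain ⟨x, x0, e, h⟩ := hP B
  exact ⟨chr x x0, e, fun l hl l0 z => h ⟨l, l0, hB l hl, z⟩⟩

theorem fin_ne {d : ℕ} {x : Fin d → ℂ} (hx : ∀ i, ∃ n : ℕ, 0 < n ∧ x i ^ n = 1) (i : Fin d) :
    x i ≠ 0 := Tor.ne_zero (hx i)

theorem fin_tor {d : ℕ} {x : Fin d → ℂ} (hx : ∀ i, ∃ n : ℕ, 0 < n ∧ x i ^ n = 1) :
    IsOfFinOrder (chr x (fin_ne hx)) := by
  choose n n0 hn using id hx
  refine fin_of_pow (N := ∏ i, n i) (prod_pos fun i _ => n0 i) ?_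
  ext a
  rw [AddChar.pow_apply, chr_apply, ← prod_pow, AddChar.one_apply]
  refine prod_eq_one fun i _ => ?_
  obtain ⟨k, hk⟩ := dvd_prod_of_mem n (mem_univ i)
  rw [hk, ← zpow_natCast, ← zpow_mul, mul_comm, zpow_mul, zpow_natCast, pow_mul, hn, one_pow,
    one_zpow]

/-- characters as functions. -/
def coeH (Λ : Type) [AddCommGroup Λ] : AddChar Λ ℂ →* (Λ → ℂ) where
  toFun χ := χ
  map_one' := rfl
  map_mul' _ _ := rfl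

theorem fin_order {Λ : Type} [AddCommGroup Λ] (χ : AddChar Λ ℂ) :
    orderOf (fun a : Λ => χ a) = orderOf χ :=
  orderOf_injective (coeH Λ) DFunLike.coe_injective χ

theorem finOrd (h : SRedN) (h' : SLink) {d : ℕ} {P : LN d} (ha : ∀ μ, IsAlgebraic ℚ (P.coeff μ))
    (hP : ∀ B : ℕ, ∃ x : Fin d → ℂ, (∀ i, x i ≠ 0) ∧ evX P x = 0 ∧
      ¬ ∃ a : Fin d → ℤ, a ≠ 0 ∧ (∀ i, |a i| ≤ B) ∧ ∏ i, x i ^ a i = 1) :
    ∃ (L : Submodule ℤ (Fin d → ℤ)) (B : ℕ) (C : ℝ) (E : Set ℕ),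
      (∀ (k : ℤ) (a : Fin d → ℤ), k ≠ 0 → k • a ∈ L → a ∈ L) ∧ min 2 d ≤ finrank ℤ L ∧
      (∀ Q : LN d, Irreducible Q → Q ∣ P → finrank ℤ (Submodule.span ℤ
        {a | ∃ μ ∈ Q.coeff.support, ∃ ν ∈ Q.coeff.support, a = μ - ν}) ≤ finrank ℤ L) ∧
      (∀ X : ℕ, ((E ∩ Set.Icc 1 X).ncard : ℝ) * Real.log X ≤ C * X) ∧
      ∀ x : Fin d → ℂ, (∀ i, ∃ n : ℕ, 0 < n ∧ x i ^ n = 1) →
        orderOf (fun a : L => ∏ i, x i ^ a.1 i) ∉ E →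
        evX P x ≠ 0 ∧ IsIntegral ℤ (evX P x) ∧ IsIntegral ℤ (evX P x)⁻¹ →
        ∃ a : Fin d → ℤ, a ≠ 0 ∧ (∀ i, |a i| ≤ B) ∧ ∏ i, x i ^ a i = 1 := by
  obtain ⟨L, l1, l2, l3, ⟨T, hT⟩ | ⟨-, U, u1, u2⟩⟩ := h d P ha (fin_big hP)
  · obtain ⟨B, hB⟩ := fin_relT T
    exact ⟨L, B, 0, ∅, l1, l2, l3, fun X => by simp,
      fun x hx _ hu => hB _ (hT _ (fin_tor hx) hu)⟩
  · obtain ⟨T, C, E, e1, e2⟩ := (h' L U u1).2.1
    obtain ⟨B, hB⟩ := fin_relL T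
    refine ⟨L, B, C, E, l1, l2, l3, e1, fun x hx hE hu => hB (chr x (fin_ne hx)) fun hn => hE ?_⟩
    have t := fin_tor hx
    have := e2 _ (fin_of_pow t.orderOf_pos (orderOf_dvd_iff_pow_eq_one.1 (rs_order L _)))
      (u2 _ t hu) hn
    rwa [← fin_order] at this

theorem finOrb (h : SRedN) (h' : SLink) {d : ℕ} {P : LN d} (ha : ∀ μ, IsAlgebraic ℚ (P.coeff μ))
    (hP : ∀ B : ℕ, ∃ x : Fin d → ℂ, (∀ i, x i ≠ 0) ∧ evX P x = 0 ∧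
      ¬ ∃ a : Fin d → ℤ, a ≠ 0 ∧ (∀ i, |a i| ≤ B) ∧ ∏ i, x i ^ a i = 1) :
    ∃ (L : Submodule ℤ (Fin d → ℤ)) (e C B : ℕ),
      (∀ (k : ℤ) (a : Fin d → ℤ), k ≠ 0 → k • a ∈ L → a ∈ L) ∧ min 2 d ≤ finrank ℤ L ∧
      (∀ Q : LN d, Irreducible Q → Q ∣ P → finrank ℤ (Submodule.span ℤ
        {a | ∃ μ ∈ Q.coeff.support, ∃ ν ∈ Q.coeff.support, a = μ - ν}) ≤ finrank ℤ L) ∧
      ∀ M : ℕ, 0 < M → ∃ S : Finset (L → ℂ), S.card ≤ C ∧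
        ∀ x : Fin d → ℂ, (∀ i, ∃ n : ℕ, 0 < n ∧ x i ^ n = 1) →
          (fun a : L => ∏ i, x i ^ a.1 i) ^ M = 1 →
          M ^ e ≤ orderOf (fun a : L => ∏ i, x i ^ a.1 i) ^ (e + 1) →
          evX P x ≠ 0 ∧ IsIntegral ℤ (evX P x) ∧ IsIntegral ℤ (evX P x)⁻¹ →
          (∃ a : Fin d → ℤ, a ≠ 0 ∧ (∀ i, |a i| ≤ B) ∧ ∏ i, x i ^ a i = 1) ∨
          ∃ j : ℕ, j.Coprime (orderOf fun a : L => ∏ i, x i ^ a.1 i) ∧
            (fun a : L => ∏ i, x i ^ a.1 i) ^ j ∈ S := by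
  classical
  obtain ⟨L, l1, l2, l3, ⟨T, hT⟩ | ⟨-, U, u1, u2⟩⟩ := h d P ha (fin_big hP)
  · obtain ⟨B, hB⟩ := fin_relT T
    exact ⟨L, 0, 0, B, l1, l2, l3, fun M _ => ⟨∅, le_rfl, fun x hx _ _ hu =>
      Or.inl (hB _ (hT _ (fin_tor hx) hu))⟩⟩
  · obtain ⟨e, C, T, e1⟩ := (h' L U u1).1
    obtain ⟨B, hB⟩ := fin_relL T
    refine ⟨L, e, C, B, l1, l2, l3, fun M hM => ?_⟩
    obtain ⟨S, s1, s2⟩ := e1 M hM
    refine ⟨S.image (coeH L), card_image_le.trans s1, fun x hx h1 h2 hu => ?_⟩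
    by_cases hn : NoRel T (rs L (chr x (fin_ne hx)))
    · have o := fin_order (rs L (chr x (fin_ne hx)))
      obtain ⟨j, j1, j2⟩ := s2 (rs L (chr x (fin_ne hx)))
        (DFunLike.coe_injective (((coeH L).map_pow _ _).trans h1)) (o ▸ h2)
        (u2 _ (fin_tor hx) hu) hn
      exact Or.inr ⟨j, o.symm ▸ j1, mem_image.2 ⟨_, j2, (coeH L).map_pow _ _⟩⟩
    · exact Or.inl (hB _ hn)

theorem chr_eq {d : ℕ} (χ : AddChar (Fin d → ℤ) ℂ) :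
    chr (fun i => χ (Pi.single i 1)) (fun _ => char_ne _ _) = χ := by
  classical
  ext a
  rw [chr_apply]
  conv_rhs => rw [← univ_sum_single a]
  have : ∀ s : Finset (Fin d), ∏ i ∈ s, χ (Pi.single i 1) ^ a i =
      χ (∑ i ∈ s, Pi.single i (a i)) := by
    intro s
    induction s using Finset.induction_on with
    | empty => simp
    | insert i s hi ih =>
      rw [prod_insert hi, sum_insert hi, ih, χ.map_add_eq_mul, ← χ.map_zsmul_eq_zpow,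
        ← Pi.single_smul, smul_eq_mul, mul_one]
  exact this univ

theorem fin_zpow {ι : Type} {x : ℂ} (hx : x ≠ 0) (s : Finset ι) (f : ι → ℤ) :
    x ^ (∑ i ∈ s, f i) = ∏ i ∈ s, x ^ f i := by
  classical
  induction s using Finset.induction_on with
  | empty => simp
  | insert i s hi ih => rw [sum_insert hi, prod_insert hi, zpow_add₀ hx, ih]

theorem finPush (h : SPushN) {d : ℕ} {P : LN d} (ha : ∀ μ, IsAlgebraic ℚ (P.coeff μ))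
    (hP : ∀ B : ℕ, ∃ x : Fin d → ℂ, (∀ i, x i ≠ 0) ∧ evX P x = 0 ∧
      ¬ ∃ a : Fin d → ℤ, a ≠ 0 ∧ (∀ i, |a i| ≤ B) ∧ ∏ i, x i ^ a i = 1) :
    ∃ k₀ : ℕ, ∀ k : ℕ, k₀ ≤ k → ∀ A : Matrix (Fin d) (Fin d) ℤ, A.det ≠ 0 →
      ∀ R S : LN d, (∀ μ, IsAlgebraic ℚ (R.coeff μ)) →
      (∀ x : Fin d → ℂ, (∀ i, x i ≠ 0) →
        evX R (fun j => ∏ i, x i ^ (k * A j i)) = evX P x * evX S x) →
      ∃ B : ℕ, ∀ x : Fin d → ℂ, (∀ i, ∃ n : ℕ, 0 < n ∧ x i ^ n = 1) →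
        evX R x ≠ 0 ∧ IsIntegral ℤ (evX R x) ∧ IsIntegral ℤ (evX R x)⁻¹ →
        ∃ a : Fin d → ℤ, a ≠ 0 ∧ (∀ i, |a i| ≤ B) ∧ ∏ i, x i ^ a i = 1 := by
  obtain ⟨k₀, hk⟩ := h d P ha (fin_big hP)
  refine ⟨k₀, fun k k1 A hA R S hR e => ?_⟩
  obtain ⟨T, hT⟩ := hk k k1 A.vecMulLinear
    ((injective_iff_map_eq_zero _).2 fun v hv => Matrix.eq_zero_of_vecMul_eq_zero hA hv) R S hR
    fun χ => by
      obtain ⟨x, hx, rfl⟩ : ∃ x hx, chr x hx = χ := ⟨_, _, chr_eq χ⟩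
      refine Eq.trans (sum_congr rfl fun μ _ => congrArg _ ?_) (e x hx)
      have key : ∀ a : Fin d → ℤ, ∏ j, (∏ i, x i ^ (k * A j i)) ^ a j =
          (∏ i, x i ^ (Matrix.vecMul a A) i) ^ k := by
        intro a
        simp only [← prod_zpow, ← zpow_mul, ← prod_pow]
        rw [prod_comm]
        refine prod_congr rfl fun i _ => ?_
        rw [← zpow_natCast, ← zpow_mul, Matrix.vecMul, dotProduct, sum_mul, fin_zpow (hx i)]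
        exact prod_congr rfl fun j _ => congrArg _ (by ring)
      exact (key μ).symm
  obtain ⟨B, hB⟩ := fin_relT T
  exact ⟨B, fun x hx hu => hB _ (hT _ (fin_tor hx) hu)⟩

end Pool.Agent.MP_c1891a_nt.G43
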