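import Pool.Agent.MP_c1891a_nt.G83.FacN

/-! An irreducible Laurent polynomial read on a lattice in which it has full rank. -/

namespace Pool.Agent.MP_c1891a_nt.G43

open Finset Module H43

/-- the map of the exponents. -/
def pl {r d : ℕ} (A : (Fin r → ℤ) →ₗ[ℤ] (Fin d → ℤ)) : (Fin r →₀ ℕ) →+ (Fin d → ℤ) where
  toFun μ := A fun i => μ i
  map_zero' := by rw [← A.map_zero]; congr 1
  map_add' μ ν := by rw [← A.map_add]; congr 1

/-- the Laurent polynomial `Q (x ^ A)`. -/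
noncomputable def pull {r d : ℕ} (A : (Fin r → ℤ) →ₗ[ℤ] (Fin d → ℤ)) :
    MvPolynomial (Fin r) ℂ →ₐ[ℂ] LN d := AddMonoidAlgebra.mapDomainAlgHom ℂ ℂ (pl A)

theorem pl_inj {r d : ℕ} {A : (Fin r → ℤ) →ₗ[ℤ] (Fin d → ℤ)} (hA : Function.Injective A) :
    Function.Injective (pl A) := fun μ ν h => by
  have := hA h
  ext i
  exact_mod_cast congrFun this i

theorem pull_monomial {r d : ℕ} (A : (Fin r → ℤ) →ₗ[ℤ] (Fin d → ℤ)) (μ : Fin r →₀ ℕ) (c : ℂ) :
    pull A (MvPolynomial.monomial μ c) = AddMonoidAlgebra.single (pl A μ) c :=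
  AddMonoidAlgebra.mapDomain_single

theorem pull_coeff {r d : ℕ} {A : (Fin r → ℤ) →ₗ[ℤ] (Fin d → ℤ)} (hA : Function.Injective A)
    (Q : MvPolynomial (Fin r) ℂ) (μ : Fin r →₀ ℕ) : (pull A Q).coeff (pl A μ) = Q.coeff μ :=
  Finsupp.mapDomain_apply (pl_inj hA) _ μ

/-- transfer of the class sums along an isomorphism of lattices and a shift. -/
theorem irrL_cs {Λ Λ' ι ι' F X : Type} [AddCommGroup Λ] [AddCommGroup Λ'] [Field F] [Algebra ℂ F]
    (e : Λ' ≃ₗ[ℤ] Λ) (s : Λ) (I : Finset ι) (c : ι → ℂ) (m : ι → Λ) (I' : Finset ι')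
    (c' : ι' → ℂ) (m' : ι' → Λ') (β : ι → ι') (h1 : ∀ i ∈ I, β i ∈ I') (h2 : Set.InjOn β I)
    (h3 : ∀ k ∈ I', ∃ i ∈ I, β i = k) (h4 : ∀ i ∈ I, c' (β i) = c i)
    (h5 : ∀ i ∈ I, m i = s + e (m' (β i))) (u : Λ → X) (x : AddChar Λ F)
    (hx : ((poly I c m).ref u).Zero x) :
    ((poly I' c' m').ref fun l => u (s + e l)).Zero
      (x.compAddMonoidHom e.toLinearMap.toAddMonoidHom) := by
  classical
  intro j
  have := hx j
  unfold Sys.cs at this ⊢
  refine (mul_eq_zero.1 (Eq.trans ?_ this)).resolve_left (char_ne x s)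
  rw [mul_sum]
  symm
  refine sum_bij (fun i _ => β i) (fun i hi => ?_) (fun i hi k hk e => ?_) (fun k hk => ?_)
    fun i hi => ?_
  · simp only [mem_filter] at hi ⊢
    exact ⟨h1 i hi.1, by rw [← h5 i hi.1]; exact hi.2⟩
  · simp only [mem_filter] at hi hk
    exact h2 hi.1 hk.1 e
  · simp only [mem_filter] at hk ⊢
    obtain ⟨i, hi, rfl⟩ := h3 k hk.1
    exact ⟨i, ⟨hi, by rw [h5 i hi]; exact hk.2⟩, rfl⟩
  · simp only [mem_filter] at hi
    change algebraMap ℂ F (c i) * x (m i) = x s * (algebraMap ℂ F (c' (β i)) * x (e (m' (β i))))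
    rw [h4 i hi.1, h5 i hi.1, x.map_add_eq_mul]
    ring

theorem irrL_td {Λ Λ' F : Type} [AddCommGroup Λ] [AddCommGroup Λ'] [Field F] [Algebra ℂ F]
    (e : Λ' ≃ₗ[ℤ] Λ) {x : AddChar Λ F} {n : ℕ} (h : TD x n) :
    TD (x.compAddMonoidHom e.toLinearMap.toAddMonoidHom) n := by
  obtain ⟨l, hl⟩ := h
  exact ⟨fun k => e.symm (l k), by simpa using hl⟩

theorem irrL_full {Λ Λ' ι ι' : Type} [AddCommGroup Λ] [AddCommGroup Λ']
    (e : Λ' ≃ₗ[ℤ] Λ) (s : Λ) (I : Finset ι) (c : ι → ℂ) (m : ι → Λ) (I' : Finset ι')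
    (c' : ι' → ℂ) (m' : ι' → Λ') (β : ι → ι') (h1 : ∀ i ∈ I, β i ∈ I') (h2 : Set.InjOn β I)
    (h3 : ∀ k ∈ I', ∃ i ∈ I, β i = k) (h4 : ∀ i ∈ I, c' (β i) = c i)
    (h5 : ∀ i ∈ I, m i = s + e (m' (β i))) (h : (poly I' c' m').Full) : (poly I c m).Full := by
  refine ⟨fun F _ _ x hx n hn => ?_, fun u hu F _ _ x hx n hn => ?_⟩
  · rw [← e.finrank_eq]
    refine h.1 F _ (Sys.zero_of_ref _ _ (irrL_cs e s I c m I' c' m' β h1 h2 h3 h4 h5
      (fun _ => ()) x ?_)) n (irrL_td e hn)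
    exact (poly I c m).zero_re _ (poly I c m).κ (fun _ _ _ _ _ => rfl) hx
  · rw [← e.finrank_eq]
    refine h.2 (u ∘ₗ e.toLinearMap) (fun z => hu (LinearMap.ext fun l => ?_)) F _
      (Sys.zero_ref _ _ _ (fun i _ k _ h => ?_)
        (irrL_cs e s I c m I' c' m' β h1 h2 h3 h4 h5 u x hx)) n (irrL_td e hn)
    · simpa using LinearMap.congr_fun z (e.symm l)
    · simpa using h

theorem sIrrL (h : SIrr) : SIrrL := by
  classical
  intro d P W m μ₀ hP hm hfull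
  set I := P.coeff.support with hI
  obtain ⟨μ₁, hμ₁⟩ := supp_ne hP.ne_zero
  let b := Module.finBasis ℤ W
  let A : (Fin (finrank ℤ W) → ℤ) →ₗ[ℤ] (Fin d → ℤ) := W.subtype ∘ₗ b.equivFun.symm.toLinearMap
  have hA : Function.Injective A := W.subtype_injective.comp b.equivFun.symm.injective
  let n : (Fin d → ℤ) → Fin (finrank ℤ W) → ℤ := fun μ => b.equivFun (m μ)
  have hn : ∀ μ ∈ I, A (n μ) = μ - μ₀ := fun μ hμ => by
    rw [← hm μ hμ]
    exact congrArg Subtype.val (b.equivFun.symm_apply_apply (m μ))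
  let lo : Fin (finrank ℤ W) → ℤ := fun i => I.inf' ⟨μ₁, hμ₁⟩ fun μ => n μ i
  let β : (Fin d → ℤ) → Fin (finrank ℤ W) →₀ ℕ := fun μ =>
    Finsupp.equivFunOnFinite.symm fun i => (n μ i - lo i).toNat
  have hβ : ∀ μ ∈ I, (fun i => (β μ i : ℤ)) = n μ - lo := fun μ hμ => by
    ext i
    have : lo i ≤ n μ i := inf'_le (fun μ => n μ i) hμ
    simp only [β, Finsupp.equivFunOnFinite_symm_apply_apply, Pi.sub_apply]
    omega
  have hpl : ∀ μ ∈ I, μ₀ + A lo + pl A (β μ) = μ := fun μ hμ => by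
    change μ₀ + A lo + A (fun i => (β μ i : ℤ)) = μ
    rw [hβ μ hμ, map_sub, hn μ hμ]
    abel
  let Q : MvPolynomial (Fin (finrank ℤ W)) ℂ := ∑ μ ∈ I, MvPolynomial.monomial (β μ) (P.coeff μ)
  have hPQ : P = AddMonoidAlgebra.single (μ₀ + A lo) 1 * pull A Q := by
    rw [map_sum, mul_sum]
    conv_lhs => rw [← AddMonoidAlgebra.sum_coeff_single P]
    refine sum_congr rfl fun μ hμ => ?_
    rw [pull_monomial, AddMonoidAlgebra.single_mul_single, hpl μ hμ, one_mul]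
  have hc0 : ∀ γ, P.coeff (μ₀ + A lo + pl A γ) = Q.coeff γ := fun γ => by
    conv_lhs => rw [hPQ]
    rw [AddMonoidAlgebra.coeff_single_mul_add, one_mul, pull_coeff hA]
  have hc1 : ∀ μ ∈ I, Q.coeff (β μ) = P.coeff μ := fun μ hμ => by rw [← hc0, hpl μ hμ]
  have hco : ∀ μ ∈ I, Q.coeff (β μ) ≠ 0 := fun μ hμ => by
    rw [hc1 μ hμ]
    exact Finsupp.mem_support_iff.1 hμ
  have hsu : IsUnit (AddMonoidAlgebra.single (μ₀ + A lo) (1 : ℂ)) := single_unit _ one_ne_zero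
  have hun : ∀ Q₁ Q₂, Q = Q₁ * Q₂ → IsUnit (pull A Q₁) → IsUnit Q₁ := by
    intro Q₁ Q₂ e hu
    have h1 : Q₁.support.card ≤ 1 := by
      refine le_trans (card_le_card_of_injOn (pl A) (fun μ hμ => ?_) (pl_inj hA).injOn)
        (unit_card hu)
      rw [mem_coe, Finsupp.mem_support_iff, pull_coeff hA]
      exact MvPolynomial.mem_support_iff.1 hμ
    obtain ⟨γ, hγ⟩ := card_le_one_iff_subset_singleton.1 h1
    have h2 : Q₁ = MvPolynomial.monomial γ (Q₁.coeff γ) :=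
      MvPolynomial.eq_monomial_of_support_subset_singleton fun μ hμ => mem_singleton.1 (hγ hμ)
    have h3 : γ = 0 := by
      ext i
      obtain ⟨μ, hμ, hlo⟩ := exists_mem_eq_inf' ⟨μ₁, hμ₁⟩ fun μ => n μ i
      have h4 := hco μ hμ
      rw [e, h2, MvPolynomial.coeff_monomial_mul'] at h4
      have h5 : γ ≤ β μ := by
        by_contra h
        exact h4 (if_neg h)
      have h6 := h5 i
      have h7 := congrFun (hβ μ hμ) i
      have h9 : lo i = n μ i := hlo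
      rw [Pi.sub_apply, h9, sub_self] at h7
      simp only [Finsupp.coe_zero, Pi.zero_apply]
      omega
    have h8 : Q₁.coeff γ ≠ 0 := fun z => hu.ne_zero (by rw [h2, z, map_zero, map_zero])
    subst h3
    rw [h2]
    exact (IsUnit.mk0 _ h8).map MvPolynomial.C
  have hQ : Irreducible Q := by
    refine ⟨fun hu => hP.not_isUnit (hPQ ▸ hsu.mul (hu.map _)), fun Q₁ Q₂ e => ?_⟩
    have := hP.isUnit_or_isUnit (a := AddMonoidAlgebra.single (μ₀ + A lo) 1 * pull A Q₁)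
      (b := pull A Q₂) (by rw [mul_assoc, ← map_mul, ← e]; exact hPQ)
    exact this.imp (fun h => hun Q₁ Q₂ e (isUnit_of_mul_isUnit_right h))
      fun h => hun Q₂ Q₁ (e.trans (mul_comm _ _)) h
  refine irrL_full b.equivFun.symm (b.equivFun.symm lo) I P.coeff m Q.support
    (fun μ => Q.coeff μ) _ β (fun μ hμ => MvPolynomial.mem_support_iff.2 (hco μ hμ))
    (fun μ hμ ν hν e => by rw [← hpl μ hμ, e, hpl ν hν]) (fun γ hγ => ?_) hc1
    (fun μ hμ => ?_) (h _ Q hQ fun u hu => ?_)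
  · have hγ' : μ₀ + A lo + pl A γ ∈ I := by
      rw [hI, Finsupp.mem_support_iff, hc0]
      exact MvPolynomial.mem_support_iff.1 hγ
    exact ⟨_, hγ', pl_inj hA (add_left_cancel (hpl _ hγ'))⟩
  · rw [hβ μ hμ, ← map_add, add_sub_cancel]
    exact (b.equivFun.symm_apply_apply (m μ)).symm
  · obtain ⟨μ, hμ, ν, hν, e⟩ := hfull (u ∘ₗ b.equivFun.toLinearMap) fun z =>
      hu (LinearMap.ext fun l => (congrArg u (b.equivFun.apply_symm_apply l)).symm.trans
        (LinearMap.congr_fun z (b.equivFun.symm l)))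
    refine ⟨β μ, MvPolynomial.mem_support_iff.2 (hco μ hμ), β ν,
      MvPolynomial.mem_support_iff.2 (hco ν hν), ?_⟩
    rw [hβ μ hμ, hβ ν hν, map_sub, map_sub]
    exact fun z => e (sub_left_injective z)

end Pool.Agent.MP_c1891a_nt.G43
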