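import Pool.Agent.MP_c1891a_nt.G43.Spec3
import Pool.Agent.MP_c1891a_nt.G83.FacN
import Pool.Agent.MP_c1891a_nt.G89.PrimN
import Pool.Agent.MP_c1891a_nt.H79.All
import Pool.Agent.MP_c1891a_nt.H16.NA
import Pool.Agent.MP_c1891a_nt.H44.Gal
import Pool.Agent.MP_c1891a_nt.H14.OneC
import Pool.Agent.MP_c1891a_nt.H36.Root
import Pool.Agent.MP_c1891a_nt.H53.NormP

/-! Reduction of a Laurent polynomial to an irreducible factor of largest rank. -/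

namespace Pool.Agent.MP_c1891a_nt.G43

open Finset Module H43

/-- the saturation. -/
def satur {Λ : Type} [AddCommGroup Λ] (V : Submodule ℤ Λ) : Submodule ℤ Λ where
  carrier := {a | ∃ k : ℤ, k ≠ 0 ∧ k • a ∈ V}
  zero_mem' := ⟨1, one_ne_zero, by simp⟩
  add_mem' := by
    rintro a b ⟨k, k0, hk⟩ ⟨l, l0, hl⟩
    refine ⟨k * l, mul_ne_zero k0 l0, ?_⟩
    rw [smul_add, mul_smul k l b, mul_comm, mul_smul]
    exact V.add_mem (V.smul_mem _ hk) (V.smul_mem _ hl)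
  smul_mem' := by
    rintro c a ⟨k, k0, hk⟩
    exact ⟨k, k0, by rw [smul_comm]; exact V.smul_mem _ hk⟩

theorem sat_satur {Λ : Type} [AddCommGroup Λ] (V : Submodule ℤ Λ) : Sat (satur V) := by
  rintro k l k0 ⟨m, m0, hm⟩
  exact ⟨m * k, mul_ne_zero m0 k0, by rwa [mul_smul]⟩

theorem le_satur {Λ : Type} [AddCommGroup Λ] (V : Submodule ℤ Λ) : V ≤ satur V :=
  fun _ h => ⟨1, one_ne_zero, by rwa [one_smul]⟩

theorem red_int {Λ : Type} [AddCommGroup Λ] {χ : AddChar Λ ℂ} (h : IsOfFinOrder χ) (l : Λ) :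
    IsIntegral ℤ (χ l) :=
  IsIntegral.of_pow h.orderOf_pos (by rw [char_pow_one (pow_orderOf_eq_one χ)]; exact isIntegral_one)

theorem red_evInt {d : ℕ} {P : LN d} (hP : ∀ μ, IsIntegral ℤ (P.coeff μ))
    {χ : AddChar (Fin d → ℤ) ℂ} (h : IsOfFinOrder χ) : IsIntegral ℤ (evL P χ) :=
  IsIntegral.sum _ fun μ _ => (hP μ).mul (red_int h μ)

theorem red_isU {a b : ℂ} (ha : IsIntegral ℤ a) (hb : IsIntegral ℤ b) (h : H79.IsU (a * b)) :
    H79.IsU a := by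
  have a0 := left_ne_zero_of_mul h.1
  have b0 := right_ne_zero_of_mul h.1
  refine ⟨a0, ha, ?_⟩
  have : a⁻¹ = b * (a * b)⁻¹ := by field_simp
  rw [this]
  exact hb.mul h.2.2

/-- either all coefficients are integral or the integral values are at degenerate points. -/
theorem red_or {d : ℕ} {P : LN d} (ha : ∀ μ, IsAlgebraic ℚ (P.coeff μ)) :
    (∀ μ, IsIntegral ℤ (P.coeff μ)) ∨ ∃ T : Finset (Fin d → ℤ), ∀ χ : AddChar (Fin d → ℤ) ℂ,
      IsOfFinOrder χ → IsIntegral ℤ (evL P χ) → ¬ NoRel T χ := by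
  classical
  rcases sNA sGal _ P.coeff.support P.coeff fun μ _ => ha μ with h | ⟨B, hB⟩
  · refine Or.inl fun μ => ?_
    by_cases m : μ ∈ P.coeff.support
    · exact h μ m
    · rw [Finsupp.notMem_support_iff.1 m]; exact isIntegral_zero
  refine Or.inr ⟨(range (B + 1) ×ˢ P.coeff.support ×ˢ P.coeff.support).image
    fun z => z.1 • (z.2.1 - z.2.2), fun χ hχ hu hT => ?_⟩
  obtain ⟨μ, hμ, ν, hν, ne, s, s0, s1, s2⟩ := hB (fun μ => χ μ) (fun μ _ => char_tor hχ μ) hu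
  refine hT (s • (μ - ν)) (mem_image.2 ⟨(s, μ, ν), by simp [hμ, hν, s1], rfl⟩)
    (smul_ne_zero s0.ne' (sub_ne_zero.2 ne)) ?_
  have := congrArg (· ^ s) (char_sub χ μ ν)
  simp only [mul_pow, s2] at this
  rw [χ.map_nsmul_eq_pow]
  exact (mul_eq_right₀ (pow_ne_zero _ (char_ne χ ν))).1 this

/-- an integral multiple of a factor. -/
theorem red_prim {d : ℕ} {P Q : LN d} (h0 : P ≠ 0) (hP : ∀ μ, IsIntegral ℤ (P.coeff μ))
    (hQ : Irreducible Q) (hd : Q ∣ P) : ∃ Q' : LN d, Irreducible Q' ∧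
      Q'.coeff.support = Q.coeff.support ∧ (∀ μ, IsIntegral ℤ (Q'.coeff μ)) ∧
      (BigN Q → BigN Q') ∧ ∀ χ, IsOfFinOrder χ → H79.IsU (evL P χ) → H79.IsU (evL Q' χ) := by
  obtain ⟨S, rfl⟩ := hd
  obtain ⟨c, c0, h1, h2⟩ := sPrimN d Q S h0 hP
  have e1 : ∀ (a : ℂ) (R : LN d) μ, (a • R).coeff μ = a * R.coeff μ := fun a R μ => rfl
  have e2 : ∀ (a : ℂ) (R : LN d) χ, evL (a • R) χ = a * evL R χ := fun a R χ => by
    rw [← evH_eq, map_smul, evH_eq, smul_eq_mul]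
  refine ⟨c • Q, ?_, ?_, h1, fun hB T => ?_, fun χ hχ hu => ?_⟩
  · rw [Algebra.smul_def]
    exact (irreducible_isUnit_mul ((IsUnit.mk0 c c0).map _)).2 hQ
  · ext μ
    simp only [Finsupp.mem_support_iff, e1, ne_eq, mul_eq_zero, c0, false_or]
  · obtain ⟨χ, a, b⟩ := hB T
    exact ⟨χ, by rw [e2, a, mul_zero], b⟩
  · refine red_isU (b := evL (c⁻¹ • S) χ) (red_evInt h1 hχ) (red_evInt h2 hχ) ?_
    rw [e2, e2, mul_mul_mul_comm, mul_inv_cancel₀ c0, one_mul, ← evH_eq, ← evH_eq, ← map_mul,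
      evH_eq]
    exact hu

theorem dif_mem {d : ℕ} {Q : LN d} {μ ν : Fin d → ℤ} (hμ : μ ∈ Q.coeff.support)
    (hν : ν ∈ Q.coeff.support) : μ - ν ∈ dif Q := Submodule.subset_span ⟨μ, hμ, ν, hν, rfl⟩

theorem red_one (h4 : SRk1) {d : ℕ} {Q : LN d} (hQ : Irreducible Q) (hB : BigN Q)
    (hi : ∀ μ, IsIntegral ℤ (Q.coeff μ)) (hr : finrank ℤ (dif Q) ≤ 1) :
    ∃ T : Finset (Fin d → ℤ), ∀ χ : AddChar (Fin d → ℤ) ℂ, IsOfFinOrder χ →
      H79.IsU (evL Q χ) → ¬ NoRel T χ := by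
  classical
  obtain ⟨μ, ν, ne, hs, ht⟩ := h4 d Q (dif Q) hQ hB hr fun μ hμ ν hν => dif_mem hμ hν
  have m0 : Q.coeff μ ≠ 0 := Finsupp.mem_support_iff.1 (by simp [hs])
  have n0 : Q.coeff ν ≠ 0 := Finsupp.mem_support_iff.1 (by simp [hs])
  have al : ∀ a, IsAlgebraic ℚ (Q.coeff a) := fun a => ((hi a).tower_top (A := ℚ)).isAlgebraic
  obtain ⟨B, hB⟩ := sOneC sRoot sArith H79.allTL (sEmb sGal) sNormP _
    (div_ne_zero (neg_ne_zero.2 n0) m0) ht (by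
      rw [div_eq_mul_inv]; exact (al ν).neg.mul (al μ).inv)
  refine ⟨(range (B + 1)).image fun s => s • (μ - ν), fun χ hχ hu hT => ?_⟩
  have e : evL Q χ = Q.coeff μ * χ ν * (χ (μ - ν) - -Q.coeff ν / Q.coeff μ) := by
    rw [evL, evN, hs, sum_pair ne]
    simp only [id]
    rw [← char_sub χ μ ν]
    field_simp
    ring
  obtain ⟨s, s0, s1, s2⟩ := hB _ (char_tor hχ (μ - ν)) (by
    have h := ((hi μ).mul (red_int hχ ν)).mul hu.2.2
    rwa [e, mul_inv, ← mul_assoc, mul_inv_cancel₀ (mul_ne_zero m0 (char_ne χ ν)), one_mul] at h)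
  exact hT (s • (μ - ν)) (mem_image.2 ⟨s, by simp [s1], rfl⟩)
    (smul_ne_zero s0.ne' (sub_ne_zero.2 ne)) (by rw [χ.map_nsmul_eq_pow, s2])

theorem red_two (h1 : SCore) (h3 : SIrrL) {d : ℕ} {Q : LN d} (hQ : Irreducible Q)
    (hi : ∀ μ, IsIntegral ℤ (Q.coeff μ)) (hr : 2 ≤ finrank ℤ (satur (dif Q))) :
    ∃ U : AddChar (satur (dif Q)) ℂ → Prop, Link U ∧ ∀ χ : AddChar (Fin d → ℤ) ℂ,
      IsOfFinOrder χ → H79.IsU (evL Q χ) → U (rs _ χ) := by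
  classical
  obtain ⟨μ₀, hμ₀⟩ := supp_ne hQ.ne_zero
  let m : (Fin d → ℤ) → satur (dif Q) := fun μ =>
    if h : μ ∈ Q.coeff.support then ⟨μ - μ₀, le_satur _ (dif_mem h hμ₀)⟩ else 0
  have hm : ∀ μ ∈ Q.coeff.support, (m μ).1 = μ - μ₀ := fun μ hμ => by simp only [m, dif_pos hμ]
  have hf : ∀ u : satur (dif Q) →ₗ[ℤ] ℤ, u ≠ 0 → ∃ μ ∈ Q.coeff.support, ∃ ν ∈ Q.coeff.support,
      u (m μ) ≠ u (m ν) := by
    intro u hu
    by_contra hc
    push Not at hc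
    have h2 : dif Q ≤ (LinearMap.ker u).map (satur (dif Q)).subtype := by
      refine Submodule.span_le.2 ?_
      rintro _ ⟨μ, hμ, ν, hν, rfl⟩
      refine ⟨m μ - m ν, ?_, ?_⟩
      · rw [SetLike.mem_coe, LinearMap.mem_ker, map_sub, hc μ hμ ν hν, sub_self]
      · rw [map_sub, Submodule.subtype_apply, Submodule.subtype_apply, hm μ hμ, hm ν hν]
        abel
    refine hu (LinearMap.ext fun y => ?_)
    obtain ⟨k, k0, hk⟩ := y.2
    obtain ⟨y', h5, h6⟩ := h2 hk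
    have h7 : y' = k • y := Subtype.ext h6
    rw [h7, SetLike.mem_coe, LinearMap.mem_ker, map_smul, smul_eq_mul] at h5
    exact (mul_eq_zero.1 h5).resolve_left k0
  refine ⟨_, h1 _ _ Q.coeff.support Q.coeff m hr
    (fun μ hμ => ⟨hi μ, Finsupp.mem_support_iff.1 hμ⟩) (fun μ hμ ν hν e => ?_) hf
    (h3 d Q _ m μ₀ hQ hm hf), fun χ hχ hu => ?_⟩
  · have := congrArg Subtype.val e
    rwa [hm μ hμ, hm ν hν, sub_left_inj] at this
  · have e : evN Q.coeff.support Q.coeff m (rs _ χ) * χ μ₀ = evL Q χ := by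
      rw [evL, evN, evN, sum_mul]
      refine sum_congr rfl fun μ hμ => ?_
      rw [rs_apply, hm μ hμ, mul_assoc, char_sub]
      rfl
    refine red_isU (b := χ μ₀) ?_ (red_int hχ _) (e ▸ hu)
    exact IsIntegral.sum _ fun μ _ => (hi μ).mul (red_int hχ _)

theorem sRedN (h1 : SCore) (h2 : SFacN) (h3 : SIrrL) (h4 : SRk1) : SRedN := by
  classical
  intro d P ha hB
  by_cases hA : ∃ T : Finset (Fin d → ℤ), ∀ χ : AddChar (Fin d → ℤ) ℂ, IsOfFinOrder χ →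
      H79.IsU (evL P χ) → ¬ NoRel T χ
  · refine ⟨⊤, fun _ _ _ _ => trivial, ?_, fun Q _ _ => Submodule.finrank_mono le_top, Or.inl hA⟩
    simp
  have h0 : P ≠ 0 := by
    rintro rfl
    exact hA ⟨∅, fun χ _ hu => absurd (by simp [evL, evN]) hu.1⟩
  have hi := (red_or ha).resolve_right fun ⟨T, hT⟩ => hA ⟨T, fun χ a b => hT χ a b.2.1⟩
  obtain ⟨Q₀, q1, q2, q3⟩ := (h2 d).2.2 P h0 hB
  have hd : ∀ Q : LN d, finrank ℤ (dif Q) ≤ d := fun Q =>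
    (Submodule.finrank_le _).trans (by simp)
  obtain ⟨r, hr, hmax⟩ := exists_max_image ((range (d + 1)).filter fun r =>
    ∃ Q : LN d, Irreducible Q ∧ Q ∣ P ∧ finrank ℤ (dif Q) = r) id
    ⟨_, mem_filter.2 ⟨mem_range.2 (Nat.lt_succ_of_le (hd Q₀)), Q₀, q1, q2, rfl⟩⟩
  obtain ⟨Q, a1, a2, rfl⟩ := (mem_filter.1 hr).2
  have hle : ∀ Q' : LN d, Irreducible Q' → Q' ∣ P → finrank ℤ (dif Q') ≤ finrank ℤ (dif Q) :=
    fun Q' a b => hmax _ (mem_filter.2 ⟨mem_range.2 (Nat.lt_succ_of_le (hd Q')), Q', a, b, rfl⟩)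
  have h2r : 2 ≤ finrank ℤ (dif Q) := by
    by_contra hc
    obtain ⟨Q', b1, b2, b3, b4, b5⟩ := red_prim h0 hi q1 q2
    have e : dif Q' = dif Q₀ := by rw [dif, dif, b2]
    obtain ⟨T, hT⟩ := red_one h4 b1 (b4 q3) b3 (by have := hle Q₀ q1 q2; rw [e]; omega)
    exact hA ⟨T, fun χ a b => hT χ a (b5 χ a b)⟩
  obtain ⟨Q', b1, b2, b3, -, b5⟩ := red_prim h0 hi a1 a2
  have e : dif Q' = dif Q := by rw [dif, dif, b2]
  have hs : finrank ℤ (dif Q) ≤ finrank ℤ (satur (dif Q')) :=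
    e ▸ Submodule.finrank_mono (le_satur _)
  obtain ⟨U, u1, u2⟩ := red_two h1 h3 b1 b3 (h2r.trans hs)
  exact ⟨satur (dif Q'), sat_satur _, (min_le_left _ _).trans (h2r.trans hs),
    fun Q'' a b => (hle Q'' a b).trans hs,
    Or.inr ⟨h2r.trans hs, U, u1, fun χ a b => u2 χ a (b5 χ a b)⟩⟩

end Pool.Agent.MP_c1891a_nt.G43
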