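import Pool.Agent.MP_c1891a_nt.G43.Spec4
import Pool.Agent.MP_c1891a_nt.G83.Red
import Pool.Agent.MP_c1891a_nt.G83.Fin

/-! The reduction for an arbitrary property, and the count of the exceptional orbits. -/

namespace Pool.Agent.MP_c1891a_nt.G43

open Finset Module H43

theorem red_twoP (Pr : ∀ (Λ : Type) [AddCommGroup Λ], (AddChar Λ ℂ → Prop) → Prop)
    (h1 : ∀ (Λ ι : Type) [AddCommGroup Λ] [Module.Free ℤ Λ] [Module.Finite ℤ Λ] (I : Finset ι)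
      (c : ι → ℂ) (m : ι → Λ), 2 ≤ finrank ℤ Λ → (∀ i ∈ I, IsIntegral ℤ (c i) ∧ c i ≠ 0) →
      Set.InjOn m I → (∀ u : Λ →ₗ[ℤ] ℤ, u ≠ 0 → ∃ i ∈ I, ∃ k ∈ I, u (m i) ≠ u (m k)) →
      (poly I c m).Full → Pr Λ fun χ => H79.IsU (evN I c m χ))
    (h3 : SIrrL) {d : ℕ} {Q : LN d} (hQ : Irreducible Q)
    (hi : ∀ μ, IsIntegral ℤ (Q.coeff μ)) (hr : 2 ≤ finrank ℤ (satur (dif Q))) :
    ∃ U : AddChar (satur (dif Q)) ℂ → Prop, Pr _ U ∧ ∀ χ : AddChar (Fin d → ℤ) ℂ,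
      IsOfFinOrder χ → H79.IsU (evL Q χ) → U (rs _ χ) := by
  classical
  obtain ⟨μ₀, hμ₀⟩ := supp_ne hQ.ne_zero
  let m : (Fin d → ℤ) → satur (dif Q) := fun μ =>
    if h : μ ∈ Q.coeff.support then ⟨μ - μ₀, le_satur _ (dif_mem h hμ₀)⟩ else 0
  have hm : ∀ μ ∈ Q.coeff.support, (m μ).1 = μ - μ₀ := fun μ hμ => by simp only [m, dif_pos hμ]
  have hf : ∀ u : satur (dif Q) →ₗ[ℤ] ℤ, u ≠ 0 → ∃ μ ∈ Q.coeff.support, ∃ ν ∈ Q.coeff.support,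
      u (m μ) ≠ u (m ν) := by
    intro u hu
    by_contra hc
    push Not at hc
    have h2 : dif Q ≤ (LinearMap.ker u).map (satur (dif Q)).subtype := by
      refine Submodule.span_le.2 ?_
      rintro _ ⟨μ, hμ, ν, hν, rfl⟩
      refine ⟨m μ - m ν, ?_, ?_⟩
      · rw [SetLike.mem_coe, LinearMap.mem_ker, map_sub, hc μ hμ ν hν, sub_self]
      · rw [map_sub, Submodule.subtype_apply, Submodule.subtype_apply, hm μ hμ, hm ν hν]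
        abel
    refine hu (LinearMap.ext fun y => ?_)
    obtain ⟨k, k0, hk⟩ := y.2
    obtain ⟨y', h5, h6⟩ := h2 hk
    have h7 : y' = k • y := Subtype.ext h6
    rw [h7, SetLike.mem_coe, LinearMap.mem_ker, map_smul, smul_eq_mul] at h5
    exact (mul_eq_zero.1 h5).resolve_left k0
  refine ⟨_, h1 _ _ Q.coeff.support Q.coeff m hr
    (fun μ hμ => ⟨hi μ, Finsupp.mem_support_iff.1 hμ⟩) (fun μ hμ ν hν e => ?_) hf
    (h3 d Q _ m μ₀ hQ hm hf), fun χ hχ hu => ?_⟩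
  · have := congrArg Subtype.val e
    rwa [hm μ hμ, hm ν hν, sub_left_inj] at this
  · have e : evN Q.coeff.support Q.coeff m (rs _ χ) * χ μ₀ = evL Q χ := by
      rw [evL, evN, evN, sum_mul]
      refine sum_congr rfl fun μ hμ => ?_
      rw [rs_apply, hm μ hμ, mul_assoc, char_sub]
      rfl
    refine red_isU (b := χ μ₀) ?_ (red_int hχ _) (e ▸ hu)
    exact IsIntegral.sum _ fun μ _ => (hi μ).mul (red_int hχ _)

theorem redPr (Pr : ∀ (Λ : Type) [AddCommGroup Λ], (AddChar Λ ℂ → Prop) → Prop)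
    (h1 : ∀ (Λ ι : Type) [AddCommGroup Λ] [Module.Free ℤ Λ] [Module.Finite ℤ Λ] (I : Finset ι)
      (c : ι → ℂ) (m : ι → Λ), 2 ≤ finrank ℤ Λ → (∀ i ∈ I, IsIntegral ℤ (c i) ∧ c i ≠ 0) →
      Set.InjOn m I → (∀ u : Λ →ₗ[ℤ] ℤ, u ≠ 0 → ∃ i ∈ I, ∃ k ∈ I, u (m i) ≠ u (m k)) →
      (poly I c m).Full → Pr Λ fun χ => H79.IsU (evN I c m χ))
    (h2 : SFacN) (h3 : SIrrL) (h4 : SRk1) :
    ∀ (d : ℕ) (P : LN d), (∀ μ, IsAlgebraic ℚ (P.coeff μ)) → BigN P →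
    ∃ Λ : Submodule ℤ (Fin d → ℤ), Sat Λ ∧ min 2 d ≤ finrank ℤ Λ ∧
      (∀ Q : LN d, Irreducible Q → Q ∣ P → finrank ℤ (dif Q) ≤ finrank ℤ Λ) ∧
      ((∃ T : Finset (Fin d → ℤ), ∀ χ : AddChar (Fin d → ℤ) ℂ, IsOfFinOrder χ →
        H79.IsU (evL P χ) → ¬ NoRel T χ) ∨
      (2 ≤ finrank ℤ Λ ∧ ∃ U : AddChar Λ ℂ → Prop, Pr Λ U ∧
        ∀ χ : AddChar (Fin d → ℤ) ℂ, IsOfFinOrder χ → H79.IsU (evL P χ) → U (rs Λ χ))) := by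
  classical
  intro d P ha hB
  by_cases hA : ∃ T : Finset (Fin d → ℤ), ∀ χ : AddChar (Fin d → ℤ) ℂ, IsOfFinOrder χ →
      H79.IsU (evL P χ) → ¬ NoRel T χ
  · refine ⟨⊤, fun _ _ _ _ => trivial, ?_, fun Q _ _ => Submodule.finrank_mono le_top, Or.inl hA⟩
    simp
  have h0 : P ≠ 0 := by
    rintro rfl
    exact hA ⟨∅, fun χ _ hu => absurd (by simp [evL, evN]) hu.1⟩
  have hi := (red_or ha).resolve_right fun ⟨T, hT⟩ => hA ⟨T, fun χ a b => hT χ a b.2.1⟩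
  obtain ⟨Q₀, q1, q2, q3⟩ := (h2 d).2.2 P h0 hB
  have hd : ∀ Q : LN d, finrank ℤ (dif Q) ≤ d := fun Q =>
    (Submodule.finrank_le _).trans (by simp)
  obtain ⟨r, hr, hmax⟩ := exists_max_image ((range (d + 1)).filter fun r =>
    ∃ Q : LN d, Irreducible Q ∧ Q ∣ P ∧ finrank ℤ (dif Q) = r) id
    ⟨_, mem_filter.2 ⟨mem_range.2 (Nat.lt_succ_of_le (hd Q₀)), Q₀, q1, q2, rfl⟩⟩
  obtain ⟨Q, a1, a2, rfl⟩ := (mem_filter.1 hr).2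
  have hle : ∀ Q' : LN d, Irreducible Q' → Q' ∣ P → finrank ℤ (dif Q') ≤ finrank ℤ (dif Q) :=
    fun Q' a b => hmax _ (mem_filter.2 ⟨mem_range.2 (Nat.lt_succ_of_le (hd Q')), Q', a, b, rfl⟩)
  have h2r : 2 ≤ finrank ℤ (dif Q) := by
    by_contra hc
    obtain ⟨Q', b1, b2, b3, b4, b5⟩ := red_prim h0 hi q1 q2
    have e : dif Q' = dif Q₀ := by rw [dif, dif, b2]
    obtain ⟨T, hT⟩ := red_one h4 b1 (b4 q3) b3 (by have := hle Q₀ q1 q2; rw [e]; omega)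
    exact hA ⟨T, fun χ a b => hT χ a (b5 χ a b)⟩
  obtain ⟨Q', b1, b2, b3, -, b5⟩ := red_prim h0 hi a1 a2
  have e : dif Q' = dif Q := by rw [dif, dif, b2]
  have hs : finrank ℤ (dif Q) ≤ finrank ℤ (satur (dif Q')) :=
    e ▸ Submodule.finrank_mono (le_satur _)
  obtain ⟨U, u1, u2⟩ := red_twoP Pr h1 h3 b1 b3 (h2r.trans hs)
  exact ⟨satur (dif Q'), sat_satur _, (min_le_left _ _).trans (h2r.trans hs),
    fun Q'' a b => (hle Q'' a b).trans hs,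
    Or.inr ⟨h2r.trans hs, U, u1, fun χ a b => u2 χ a (b5 χ a b)⟩⟩

theorem finSp (h1 : SCoreS) (h2 : SFacN) (h3 : SIrrL) (h4 : SRk1) {d : ℕ} {P : LN d}
    (ha : ∀ μ, IsAlgebraic ℚ (P.coeff μ))
    (hP : ∀ B : ℕ, ∃ x : Fin d → ℂ, (∀ i, x i ≠ 0) ∧ evX P x = 0 ∧
      ¬ ∃ a : Fin d → ℤ, a ≠ 0 ∧ (∀ i, |a i| ≤ B) ∧ ∏ i, x i ^ a i = 1) :
    ∃ (L : Submodule ℤ (Fin d → ℤ)) (B : ℕ) (S : Set (L → ℂ)),
      (∀ (k : ℤ) (a : Fin d → ℤ), k ≠ 0 → k • a ∈ L → a ∈ L) ∧ min 2 d ≤ finrank ℤ L ∧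
      (∀ Q : LN d, Irreducible Q → Q ∣ P → finrank ℤ (Submodule.span ℤ
        {a | ∃ μ ∈ Q.coeff.support, ∃ ν ∈ Q.coeff.support, a = μ - ν}) ≤ finrank ℤ L) ∧
      (∀ ε : ℝ, 0 < ε → ∃ C : ℝ, ∀ (X : ℕ) (Y : Finset (L → ℂ)),
        (∀ ψ ∈ Y, ψ ∈ S ∧ orderOf ψ ≤ X) → (Y.card : ℝ) ≤ C * (X : ℝ) ^ ε) ∧
      ∀ x : Fin d → ℂ, (∀ i, ∃ n : ℕ, 0 < n ∧ x i ^ n = 1) →
        evX P x ≠ 0 ∧ IsIntegral ℤ (evX P x) ∧ IsIntegral ℤ (evX P x)⁻¹ →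
        (∃ a : Fin d → ℤ, a ≠ 0 ∧ (∀ i, |a i| ≤ B) ∧ ∏ i, x i ^ a i = 1) ∨
        ∃ j : ℕ, j.Coprime (orderOf fun a : L => ∏ i, x i ^ a.1 i) ∧
          (fun a : L => ∏ i, x i ^ a.1 i) ^ j ∈ S := by
  classical
  obtain ⟨L, l1, l2, l3, ⟨T, hT⟩ | ⟨-, U, ⟨T, S, s1, s2⟩, u2⟩⟩ :=
    redPr Sparse h1 h2 h3 h4 d P ha (fin_big hP)
  · obtain ⟨B, hB⟩ := fin_relT T
    refine ⟨L, B, ∅, l1, l2, l3, fun ε _ => ⟨0, fun X Y hY => ?_⟩,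
      fun x hx hu => Or.inl (hB _ (hT _ (fin_tor hx) hu))⟩
    rw [eq_empty_of_forall_notMem fun ψ hψ => (hY ψ hψ).1]
    simp
  · obtain ⟨B, hB⟩ := fin_relL T
    refine ⟨L, B, coeH L '' S, l1, l2, l3, fun ε hε => ?_, fun x hx hu => ?_⟩
    · obtain ⟨C, hC⟩ := s1 ε hε
      refine ⟨C, fun X Y hY => ?_⟩
      have hinj : Function.Injective (coeH L) := DFunLike.coe_injective
      have e : (Y.preimage (coeH L) hinj.injOn).card = Y.card := by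
        rw [card_preimage, filter_true_of_mem]
        exact fun ψ hψ => Set.image_subset_range _ _ (hY ψ hψ).1
      rw [← e]
      refine hC X _ fun ψ hψ => ?_
      obtain ⟨a, b⟩ := hY _ (mem_preimage.1 hψ)
      exact ⟨hinj.mem_set_image.1 a, orderOf_injective (coeH L) hinj ψ ▸ b⟩
    · by_cases hn : NoRel T (rs L (chr x (fin_ne hx)))
      · have o := fin_order (rs L (chr x (fin_ne hx)))
        have t := fin_tor hx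
        obtain ⟨j, j1, j2⟩ := s2 (rs L (chr x (fin_ne hx)))
          (fin_of_pow t.orderOf_pos (orderOf_dvd_iff_pow_eq_one.1 (rs_order L _))) (u2 _ t hu) hn
        exact Or.inr ⟨j, o.symm ▸ j1, _, j2, (coeH L).map_pow _ _⟩
      · exact Or.inl (hB _ hn)

end Pool.Agent.MP_c1891a_nt.G43
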